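import Mathlib

/-!
# Largest induced trees, average eccentricity and neighbourhood independence: the exact region

For real numbers `a, b ≥ 0` the inequality `tree(G) ≥ a ecc_avg(G) + b max λ - C` holds for all
connected graphs `G`, with some constant `C`, if and only if `a + b ≤ 1`; in this case one can take
`C = -1`.  In particular `tree(G) ≥ ecc_avg(G) + c max λ` fails for every `c > 0`, by an
arbitrarily large amount.

The graphs are two large cliques joined by a path with `2 q + 1` vertices; the middle vertex of the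
path has `2 q` further neighbours, of which `q` are joined to the vertex before it and `q` to the
vertex after it.  (Some elementary lemmas are taken from the starting library.)
-/

set_option autoImplicit false

open Finset

namespace Pool.Agent.Results.MP_e3442a_co.ExactRegion

variable {V : Type*}

/-- Eccentricity of a vertex: the largest distance from it to a vertex. -/
noncomputable def ecc [Fintype V] (G : SimpleGraph V) (v : V) : ℕ :=
  univ.sup (fun u => G.dist v u)

/-- Average eccentricity. -/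
noncomputable def avgEcc [Fintype V] (G : SimpleGraph V) : ℝ :=
  (∑ v, (ecc G v : ℝ)) / (Fintype.card V : ℝ)

/-- Largest independence number of the subgraph induced on an open neighbourhood. -/
noncomputable def maxLocalIndep [Fintype V] (G : SimpleGraph V) : ℕ :=
  univ.sup (fun v => (G.induce (G.neighborSet v)).indepNum)

/-- Largest number of vertices of an induced tree. -/
noncomputable def treeNum (G : SimpleGraph V) : ℕ :=
  sSup {m | ∃ S : Finset V, S.card = m ∧ (G.induce (S : Set V)).IsTree}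

/-! ### General lemmas -/

theorem lip (G : SimpleGraph V) (f : V → ℕ) (hf : ∀ x y, G.Adj x y → f x ≤ f y + 1)
    {u v : V} (w : G.Walk u v) : f u ≤ f v + w.length := by
  induction w with
  | nil => simp
  | cons h w ih =>
    have := hf _ _ h
    rw [SimpleGraph.Walk.length_cons]
    omega

theorem lip_dist (G : SimpleGraph V) (hc : G.Connected) (f : V → ℕ)
    (hf : ∀ x y, G.Adj x y → f x ≤ f y + 1) (u v : V) : f u ≤ f v + G.dist u v := by
  obtain ⟨w, hw⟩ := hc.exists_walk_length_eq_dist u v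
  rw [← hw]
  exact lip G f hf w

/-- a connected set cannot pass from `φ` to its complement without meeting `W` -/
theorem side (G : SimpleGraph V) (S : Set V) (hc : (G.induce S).Connected) (W : V → Prop)
    (hw : ∀ x ∈ S, ¬ W x)
    (φ : V → Prop) (hφ : ∀ x y, G.Adj x y → ¬ W x → ¬ W y → φ x → φ y) :
    (∀ x ∈ S, φ x) ∨ (∀ x ∈ S, ¬ φ x) := by
  by_cases h : ∃ x ∈ S, φ x
  · left
    obtain ⟨x, hx, hφx⟩ := h
    intro y hy
    obtain ⟨p⟩ := hc.preconnected ⟨x, hx⟩ ⟨y, hy⟩
    have : ∀ (a b : S) (p : (G.induce S).Walk a b), φ a.1 → φ b.1 := by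
      intro a b p
      induction p with
      | nil => exact id
      | @cons a c b h p ih =>
        intro ha
        exact ih (hφ a.1 c.1 h (hw _ a.2) (hw _ c.2) ha)
    exact this _ _ p hφx
  · right
    intro x hx hφx
    exact h ⟨x, hx, hφx⟩

theorem notri (G : SimpleGraph V) (S : Set V) (hc : (G.induce S).IsAcyclic) {x y z : V}
    (hx : x ∈ S) (hy : y ∈ S) (hz : z ∈ S) (h1 : G.Adj x y) (h2 : G.Adj x z) (h3 : G.Adj y z) :
    False := by
  classical
  have hf := hc.cliqueFree (n := 3) le_rfl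
  apply hf {⟨x, hx⟩, ⟨y, hy⟩, ⟨z, hz⟩}
  rw [SimpleGraph.is3Clique_triple_iff]
  exact ⟨h1, h2, h3⟩

theorem acyclic_of_rank {W : Type*} (H : SimpleGraph W) (r : W → ℕ)
    (h : ∀ x y z, H.Adj x y → H.Adj x z → r y ≤ r x → r z ≤ r x → y = z) : H.IsAcyclic := by
  classical
  intro a c hc
  obtain ⟨x, hx, hmax⟩ := c.support.toFinset.exists_max_image r ⟨a, by simp⟩
  have hx' : x ∈ c.support := by simpa using hx
  have hc' := hc.rotate hx'
  have h1 := SimpleGraph.Walk.adj_snd hc'.not_nil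
  have h2 := SimpleGraph.Walk.adj_penultimate hc'.not_nil
  have hm : ∀ y ∈ (c.rotate x hx').support, r y ≤ r x := by
    intro y hy
    apply hmax
    rw [List.mem_toFinset]
    exact (SimpleGraph.Walk.mem_support_rotate_iff c x hx').1 hy
  apply hc'.snd_ne_penultimate
  exact h x _ _ h1 h2.symm (hm _ (SimpleGraph.Walk.getVert_mem_support _ _))
    (hm _ (SimpleGraph.Walk.getVert_mem_support _ _))

theorem le_treeNum [Fintype V] (G : SimpleGraph V) (S : Finset V)
    (hS : (G.induce (S : Set V)).IsTree) : S.card ≤ treeNum G := by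
  apply le_csSup
  · refine ⟨Fintype.card V, ?_⟩
    rintro m ⟨T, rfl, _⟩
    exact card_le_univ T
  · exact ⟨S, rfl, hS⟩

/-! ### The lower bound -/

/-- a shortest path is an induced tree -/
theorem dist_lt_treeNum [Fintype V] (G : SimpleGraph V) (hc : G.Connected) (u v : V) :
    G.dist u v + 1 ≤ treeNum G := by
  classical
  obtain ⟨p, hp⟩ := hc.exists_walk_length_eq_dist u v
  have hpath := p.isPath_of_length_eq_dist hp
  have hcard : p.support.toFinset.card = G.dist u v + 1 := by
    rw [List.toFinset_card_of_nodup hpath.support_nodup, SimpleGraph.Walk.length_support, hp]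
  rw [← hcard]
  apply le_treeNum
  have hset : ((p.support.toFinset : Finset V) : Set V) = {x | x ∈ p.support} := by
    ext x; simp
  rw [hset]
  have hinj : ∀ x ∈ p.support, x = p.getVert (G.dist u x) := by
    intro x hx
    obtain ⟨i, hi, hi'⟩ := SimpleGraph.Walk.mem_support_iff_exists_getVert.1 hx
    have h1 : G.dist u x ≤ i := by
      have := SimpleGraph.dist_le (p.take i)
      rw [SimpleGraph.Walk.take_length, hi] at this
      exact this.trans (min_le_left _ _)
    have h2 : G.dist x v ≤ p.length - i := by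
      have := SimpleGraph.dist_le (p.drop i)
      rw [SimpleGraph.Walk.drop_length, hi] at this
      exact this
    have h3 := hc.dist_triangle (u := u) (v := x) (w := v)
    have h4 : G.dist u x = i := by omega
    rw [h4, hi]
  refine ⟨p.connected_induce_support, ?_⟩
  apply acyclic_of_rank _ (fun x => G.dist u x.1)
  intro x y z hxy hxz hy hz
  have key : ∀ y : {x | x ∈ p.support}, (G.induce {x | x ∈ p.support}).Adj x y →
      G.dist u y.1 ≤ G.dist u x.1 → G.dist u y.1 + 1 = G.dist u x.1 := by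
    intro y hxy hy
    have h1 : G.dist u x.1 ≤ G.dist u y.1 + 1 := by
      have h2 := hc.dist_triangle (u := u) (v := y.1) (w := x.1)
      have h3 : G.dist y.1 x.1 = 1 := SimpleGraph.dist_eq_one_iff_adj.2 hxy.symm
      omega
    rcases Nat.lt_or_ge (G.dist u y.1) (G.dist u x.1) with h | h
    · omega
    · exfalso
      have e : G.dist u y.1 = G.dist u x.1 := le_antisymm hy h
      have e1 := hinj x.1 x.2
      have e2 := hinj y.1 y.2
      rw [e, ← e1] at e2
      exact hxy.ne (Subtype.ext e2.symm)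
  have k1 := key y hxy hy
  have k2 := key z hxz hz
  apply Subtype.ext
  rw [hinj y.1 y.2, hinj z.1 z.2]
  congr 1
  omega

/-- a star is an induced tree -/
theorem indep_lt_treeNum [Fintype V] (G : SimpleGraph V) (v : V) :
    (G.induce (G.neighborSet v)).indepNum + 1 ≤ treeNum G := by
  classical
  obtain ⟨T, hT⟩ := (G.induce (G.neighborSet v)).exists_isNIndepSet_indepNum
  set T' : Finset V := T.map (Function.Embedding.subtype _) with hT'
  have hmem : ∀ x ∈ T', G.Adj v x := by
    intro x hx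
    rw [hT', mem_map] at hx
    obtain ⟨y, _, rfl⟩ := hx
    exact y.2
  have hind : ∀ x ∈ T', ∀ y ∈ T', ¬ G.Adj x y := by
    intro x hx y hy hxy
    rw [hT', mem_map] at hx hy
    obtain ⟨x, hx, rfl⟩ := hx
    obtain ⟨y, hy, rfl⟩ := hy
    have hne : x ≠ y := by
      rintro rfl
      exact hxy.ne rfl
    exact hT.isIndepSet (mem_coe.2 hx) (mem_coe.2 hy) hne hxy
  have hv : v ∉ T' := fun h => (hmem v h).ne rfl
  have hcard : (insert v T').card = (G.induce (G.neighborSet v)).indepNum + 1 := by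
    rw [card_insert_of_notMem hv, hT', card_map, hT.card_eq]
  rw [← hcard]
  apply le_treeNum
  have hvS : v ∈ ((insert v T' : Finset V) : Set V) := by simp
  refine ⟨?_, ?_⟩
  · have hr : ∀ x : ((insert v T' : Finset V) : Set V),
        (G.induce ((insert v T' : Finset V) : Set V)).Reachable ⟨v, hvS⟩ x := by
      intro x
      have hx : x.1 ∈ insert v T' := mem_coe.1 x.2
      rw [mem_insert] at hx
      rcases hx with hx | hx
      · have : x = ⟨v, hvS⟩ := Subtype.ext hx
        rw [this]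
      · apply SimpleGraph.Adj.reachable
        exact hmem x.1 hx
    have : Nonempty ((insert v T' : Finset V) : Set V) := ⟨⟨v, hvS⟩⟩
    exact SimpleGraph.Connected.mk (fun x y => (hr x).symm.trans (hr y))
  · apply acyclic_of_rank _ (fun x => if x.1 = v then 0 else 1)
    intro x y z hxy hxz hy hz
    by_cases hx : x.1 = v
    · have hy' : y.1 = v := by
        by_contra hc
        simp [hx, hc] at hy
      exact absurd (hx.trans hy'.symm) (fun h => hxy.ne (Subtype.ext h))
    · have hxT : x.1 ∈ T' := by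
        have := mem_coe.1 x.2
        rw [mem_insert] at this
        exact this.resolve_left hx
      have key : ∀ y : ((insert v T' : Finset V) : Set V),
          (G.induce ((insert v T' : Finset V) : Set V)).Adj x y → y.1 = v := by
        intro y hxy
        by_contra hc
        have := mem_coe.1 y.2
        rw [mem_insert] at this
        exact hind _ hxT _ (this.resolve_left hc) hxy
      exact Subtype.ext ((key y hxy).trans (key z hxz).symm)

theorem lower [Fintype V] (G : SimpleGraph V) (hc : G.Connected) (a b : ℝ) (ha : 0 ≤ a)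
    (hb : 0 ≤ b) (hab : a + b ≤ 1) :
    a * avgEcc G + b * (maxLocalIndep G : ℝ) + 1 ≤ (treeNum G : ℝ) := by
  classical
  have := hc.nonempty
  have h1 : avgEcc G + 1 ≤ (treeNum G : ℝ) := by
    have hcard : (0 : ℝ) < (Fintype.card V : ℝ) := by exact_mod_cast Fintype.card_pos
    have : avgEcc G ≤ (treeNum G : ℝ) - 1 := by
      rw [avgEcc, div_le_iff₀ hcard]
      have : ∀ v : V, (ecc G v : ℝ) ≤ (treeNum G : ℝ) - 1 := by
        intro v
        obtain ⟨u, _, hu⟩ := Finset.exists_mem_eq_sup univ univ_nonempty (fun u => G.dist v u)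
        have h2 := dist_lt_treeNum G hc v u
        rw [ecc, hu]
        have : ((G.dist v u + 1 : ℕ) : ℝ) ≤ (treeNum G : ℝ) := by exact_mod_cast h2
        push_cast at this
        linarith
      calc (∑ v, (ecc G v : ℝ)) ≤ ∑ _v : V, ((treeNum G : ℝ) - 1) := sum_le_sum fun v _ => this v
        _ = ((treeNum G : ℝ) - 1) * Fintype.card V := by
          rw [sum_const, card_univ, nsmul_eq_mul]; ring
    linarith
  have h2 : (maxLocalIndep G : ℝ) + 1 ≤ (treeNum G : ℝ) := by
    obtain ⟨u, _, hu⟩ := Finset.exists_mem_eq_sup univ univ_nonempty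
      (fun v => (G.induce (G.neighborSet v)).indepNum)
    have h3 := indep_lt_treeNum G u
    rw [maxLocalIndep, hu]
    exact_mod_cast h3
  have h0 : 0 ≤ avgEcc G := by
    unfold avgEcc; positivity
  nlinarith [mul_le_mul_of_nonneg_left h1 ha, mul_le_mul_of_nonneg_left h2 hb]

/-! ### The graphs -/

/-- the adjacency relation of the example, on the numbers below `2 m + 4 q + 1`: the numbers
`0, …, m - 1` form a clique, `m, …, m + 2 q` a path, `m + 2 q + 1, …, 2 m + 2 q` a clique, and there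
are `2 q` further vertices -/
def rel (m q u v : ℕ) : Prop :=
  (u < 2 * m + 2 * q + 1 ∧ v < 2 * m + 2 * q + 1 ∧
      min (u - (m - 1)) (2 * q + 2) ≤ min (v - (m - 1)) (2 * q + 2) + 1 ∧
      min (v - (m - 1)) (2 * q + 2) ≤ min (u - (m - 1)) (2 * q + 2) + 1) ∨
    (2 * m + 2 * q + 1 ≤ u ∧ v = m + q) ∨
    (2 * m + 2 * q + 1 ≤ u ∧ u < 2 * m + 3 * q + 1 ∧ v = m + q - 1) ∨
    (2 * m + 3 * q + 1 ≤ u ∧ v = m + q + 1)

/-- the graph -/
def H (m q : ℕ) : SimpleGraph (Fin (2 * m + 4 * q + 1)) :=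
  SimpleGraph.fromRel (fun u v => rel m q u.1 v.1)

theorem H_adj (m q : ℕ) (u v : Fin (2 * m + 4 * q + 1)) :
    (H m q).Adj u v ↔ u.1 ≠ v.1 ∧ (rel m q u.1 v.1 ∨ rel m q v.1 u.1) := by
  rw [H, SimpleGraph.fromRel_adj, Ne, Ne, Fin.ext_iff]

/-- the position of a vertex along the path -/
def lev (m q u : ℕ) : ℕ :=
  if u < 2 * m + 2 * q + 1 then min (u - (m - 1)) (2 * q + 2) else q + 1

theorem lev_lip (m q : ℕ) (hm : 1 ≤ m) (hq : 1 ≤ q) (x y : Fin (2 * m + 4 * q + 1))
    (h : (H m q).Adj x y) : lev m q x.1 ≤ lev m q y.1 + 1 := by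
  rw [H_adj] at h
  obtain ⟨_, h⟩ := h
  have hx := x.2
  have hy := y.2
  generalize x.1 = u at *
  generalize y.1 = v at *
  unfold rel at h
  unfold lev
  split_ifs <;> omega

theorem H_conn (m q : ℕ) (hm : 1 ≤ m) (hq : 1 ≤ q) : (H m q).Connected := by
  have : ∀ n, ∀ v : Fin (2 * m + 4 * q + 1), v.1 = n → (H m q).Reachable v 0 := by
    intro n
    induction n using Nat.strong_induction_on with
    | _ n ih =>
      intro v hv
      by_cases h0 : v.1 = 0
      · have : v = 0 := Fin.ext h0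
        rw [this]
      · have hv2 := v.2
        by_cases h1 : v.1 < 2 * m + 2 * q + 1
        · have hadj : (H m q).Adj v ⟨v.1 - 1, by omega⟩ := by
            rw [H_adj]
            unfold rel
            dsimp only
            omega
          exact hadj.reachable.trans (ih (v.1 - 1) (by omega) _ rfl)
        · have hadj : (H m q).Adj v ⟨m + q, by omega⟩ := by
            rw [H_adj]
            unfold rel
            dsimp only
            omega
          exact hadj.reachable.trans (ih (m + q) (by omega) _ rfl)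
  have hne : Nonempty (Fin (2 * m + 4 * q + 1)) := ⟨0⟩
  exact SimpleGraph.Connected.mk (fun u v => (this _ u rfl).trans (this _ v rfl).symm)

/-- the distance between the two cliques -/
theorem ecc_ge (m q : ℕ) (hm : 1 ≤ m) (hq : 1 ≤ q) (v : Fin (2 * m + 4 * q + 1))
    (hv : v.1 < m ∨ (m + 2 * q + 1 ≤ v.1 ∧ v.1 < 2 * m + 2 * q + 1)) :
    2 * q + 2 ≤ ecc (H m q) v := by
  rcases hv with hv | hv
  · have h1 := lip_dist (H m q) (H_conn m q hm hq) (fun x => lev m q x.1)
      (fun x y h => lev_lip m q hm hq x y h) ⟨m + 2 * q + 1, by omega⟩ v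
    have h2 : (H m q).dist v ⟨m + 2 * q + 1, by omega⟩ ≤ ecc (H m q) v :=
      le_sup (f := fun u => (H m q).dist v u) (mem_univ _)
    rw [SimpleGraph.dist_comm] at h2
    have e1 : lev m q (m + 2 * q + 1) = 2 * q + 2 := by
      unfold lev; rw [if_pos (by omega)]; omega
    have e2 : lev m q v.1 = 0 := by
      unfold lev; rw [if_pos (by omega)]; omega
    dsimp only at h1
    omega
  · have h1 := lip_dist (H m q) (H_conn m q hm hq) (fun x => lev m q x.1)
      (fun x y h => lev_lip m q hm hq x y h) v ⟨0, by omega⟩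
    have h2 : (H m q).dist v ⟨0, by omega⟩ ≤ ecc (H m q) v :=
      le_sup (f := fun u => (H m q).dist v u) (mem_univ _)
    have e1 : lev m q 0 = 0 := by
      unfold lev; rw [if_pos (by omega)]; omega
    have e2 : lev m q v.1 = 2 * q + 2 := by
      unfold lev; rw [if_pos (by omega)]; omega
    dsimp only at h1
    omega

theorem card_fin_filter (n a b : ℕ) (hb : b ≤ n) :
    (univ.filter (fun x : Fin n => a ≤ x.1 ∧ x.1 < b)).card = b - a := by
  have : (univ.filter (fun x : Fin n => a ≤ x.1 ∧ x.1 < b)).map Fin.valEmbedding = Ico a b := by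
    ext x
    simp only [mem_map, mem_filter, mem_univ, true_and, Fin.valEmbedding_apply, mem_Ico]
    constructor
    · rintro ⟨y, h, rfl⟩; exact h
    · rintro h
      exact ⟨⟨x, by omega⟩, h, rfl⟩
  rw [← card_map Fin.valEmbedding, this, Nat.card_Ico]

theorem sum_ge (m q : ℕ) (hm : 1 ≤ m) (hq : 1 ≤ q) :
    2 * m * (2 * q + 2) ≤ ∑ v, ecc (H m q) v := by
  have h1 : (univ.filter (fun x : Fin (2 * m + 4 * q + 1) => 0 ≤ x.1 ∧ x.1 < m)).card = m := by
    rw [card_fin_filter _ _ _ (by omega)]; omega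
  have h2 : (univ.filter (fun x : Fin (2 * m + 4 * q + 1) =>
      m + 2 * q + 1 ≤ x.1 ∧ x.1 < 2 * m + 2 * q + 1)).card = m := by
    rw [card_fin_filter _ _ _ (by omega)]; omega
  have hdisj : Disjoint (univ.filter (fun x : Fin (2 * m + 4 * q + 1) => 0 ≤ x.1 ∧ x.1 < m))
      (univ.filter (fun x : Fin (2 * m + 4 * q + 1) =>
        m + 2 * q + 1 ≤ x.1 ∧ x.1 < 2 * m + 2 * q + 1)) := by
    rw [disjoint_left]
    intro x hx hx'
    simp only [mem_filter, mem_univ, true_and] at hx hx'
    omega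
  have h3 := card_union_of_disjoint hdisj
  rw [h1, h2] at h3
  calc 2 * m * (2 * q + 2) = ∑ _v ∈ (univ.filter (fun x : Fin (2 * m + 4 * q + 1) =>
        0 ≤ x.1 ∧ x.1 < m)) ∪ (univ.filter (fun x : Fin (2 * m + 4 * q + 1) =>
        m + 2 * q + 1 ≤ x.1 ∧ x.1 < 2 * m + 2 * q + 1)), (2 * q + 2) := by
        rw [sum_const, h3, smul_eq_mul]; ring
    _ ≤ ∑ v ∈ (univ.filter (fun x : Fin (2 * m + 4 * q + 1) =>
        0 ≤ x.1 ∧ x.1 < m)) ∪ (univ.filter (fun x : Fin (2 * m + 4 * q + 1) =>
        m + 2 * q + 1 ≤ x.1 ∧ x.1 < 2 * m + 2 * q + 1)), ecc (H m q) v := by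
        apply sum_le_sum
        intro v hv
        apply ecc_ge m q hm hq
        simp only [mem_union, mem_filter, mem_univ, true_and] at hv
        omega
    _ ≤ ∑ v, ecc (H m q) v := sum_le_sum_of_subset (subset_univ _)

theorem L_ge (m q : ℕ) (hm : 1 ≤ m) (hq : 1 ≤ q) : 2 * q ≤ maxLocalIndep (H m q) := by
  classical
  refine le_trans ?_ (le_sup (f := fun v => ((H m q).induce ((H m q).neighborSet v)).indepNum)
    (mem_univ (⟨m + q, by omega⟩ : Fin (2 * m + 4 * q + 1))))
  set T : Finset (Fin (2 * m + 4 * q + 1)) := univ.filter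
    (fun x => 2 * m + 2 * q + 1 ≤ x.1 ∧ x.1 < 2 * m + 4 * q + 1) with hTdef
  have hTm : ∀ x ∈ T, 2 * m + 2 * q + 1 ≤ x.1 := by
    intro x hx
    rw [hTdef, mem_filter] at hx
    exact hx.2.1
  have hT : ∀ x ∈ T, (H m q).Adj ⟨m + q, by omega⟩ x := by
    intro x hx
    have := hTm x hx
    rw [H_adj]
    unfold rel
    dsimp only
    omega
  have hT2 : ∀ x ∈ T, ∀ y ∈ T, ¬ (H m q).Adj x y := by
    intro x hx y hy
    have := hTm x hx
    have := hTm y hy
    rw [H_adj]
    unfold rel
    omega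
  have hcard : (T.subtype (fun x => x ∈ (H m q).neighborSet ⟨m + q, by omega⟩)).card = 2 * q := by
    rw [card_subtype, filter_true_of_mem (p := fun x => x ∈ (H m q).neighborSet ⟨m + q, by omega⟩)
      (fun x hx => hT x hx), hTdef, card_fin_filter _ _ _ (by omega)]
    omega
  rw [← hcard]
  apply SimpleGraph.IsIndepSet.card_le_indepNum
  intro x hx y hy _ hxy
  exact hT2 x.1 (by simpa using hx) y.1 (by simpa using hy) hxy

/-- the number of elements of `S` between `a` and `b` -/
def cnt {n : ℕ} (S : Finset (Fin n)) (a b : ℕ) : ℕ := (S.filter (fun x => a ≤ x.1 ∧ x.1 < b)).card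

theorem cnt_le {n : ℕ} (S : Finset (Fin n)) (a b : ℕ) (hb : b ≤ n) : cnt S a b ≤ b - a := by
  rw [← card_fin_filter n a b hb]
  apply card_le_card
  apply filter_subset_filter
  exact subset_univ _

theorem cnt_add {n : ℕ} (S : Finset (Fin n)) (a b c : ℕ) (hab : a ≤ b) (hbc : b ≤ c) :
    cnt S a c = cnt S a b + cnt S b c := by
  unfold cnt
  rw [← card_union_of_disjoint]
  · congr 1
    ext x
    simp only [mem_filter, mem_union]
    constructor
    · rintro ⟨h1, h2⟩
      rcases Nat.lt_or_ge x.1 b with h | h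
      · exact Or.inl ⟨h1, by omega⟩
      · exact Or.inr ⟨h1, by omega⟩
    · rintro (⟨h1, h2⟩ | ⟨h1, h2⟩)
      · exact ⟨h1, by omega⟩
      · exact ⟨h1, by omega⟩
  · rw [disjoint_left]
    intro x hx hx'
    simp only [mem_filter] at hx hx'
    omega

theorem cnt_all {n : ℕ} (S : Finset (Fin n)) : cnt S 0 n = S.card := by
  unfold cnt
  rw [filter_true_of_mem]
  intro x _
  exact ⟨Nat.zero_le _, x.2⟩

theorem cnt_zero {n : ℕ} (S : Finset (Fin n)) (a b : ℕ)
    (h : ∀ x ∈ S, ¬ (a ≤ x.1 ∧ x.1 < b)) : cnt S a b = 0 := by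
  unfold cnt
  rw [card_eq_zero, filter_eq_empty_iff]
  exact fun x hx => h x hx

theorem cnt_pos {n : ℕ} (S : Finset (Fin n)) (a b : ℕ) (h : cnt S a b ≠ 0) :
    ∃ x ∈ S, a ≤ x.1 ∧ x.1 < b := by
  by_contra hc
  push Not at hc
  apply h
  apply cnt_zero
  intro x hx h1
  have := hc x hx h1.1
  omega

theorem not_mem_of_cnt {n : ℕ} (S : Finset (Fin n)) (a b : ℕ) (hab : b = a + 1)
    (h : cnt S a b = 0) : ∀ x ∈ S, ¬ x.1 = a := by
  intro x hx hxa
  unfold cnt at h
  rw [card_eq_zero, filter_eq_empty_iff] at h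
  exact h hx ⟨by omega, by omega⟩

theorem tree_le (m q : ℕ) (hm : 1 ≤ m) (hq : 1 ≤ q) (S : Finset (Fin (2 * m + 4 * q + 1)))
    (hS : ((H m q).induce (S : Set (Fin (2 * m + 4 * q + 1)))).IsTree) :
    S.card ≤ 2 * q + 5 := by
  classical
  -- the cliques
  have hclique : ∀ a b : ℕ, (∀ u v : Fin (2 * m + 4 * q + 1), a ≤ u.1 → u.1 < b → a ≤ v.1 →
      v.1 < b → u.1 ≠ v.1 → (H m q).Adj u v) → cnt S a b ≤ 2 := by
    intro a b hcl
    by_contra h
    unfold cnt at h
    obtain ⟨x, hx, y, hy, z, hz, hxy, hxz, hyz⟩ := two_lt_card.1 (not_le.1 h)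
    rw [mem_filter] at hx hy hz
    exact notri (H m q) _ hS.isAcyclic (mem_coe.2 hx.1) (mem_coe.2 hy.1) (mem_coe.2 hz.1)
      (hcl _ _ hx.2.1 hx.2.2 hy.2.1 hy.2.2 (fun h => hxy (Fin.ext h)))
      (hcl _ _ hx.2.1 hx.2.2 hz.2.1 hz.2.2 (fun h => hxz (Fin.ext h)))
      (hcl _ _ hy.2.1 hy.2.2 hz.2.1 hz.2.2 (fun h => hyz (Fin.ext h)))
  have cA : cnt S 0 m ≤ 2 := by
    apply hclique
    intro u v h1 h2 h3 h4 h5
    rw [H_adj]
    unfold rel
    omega
  have cB : cnt S (m + 2 * q + 1) (2 * m + 2 * q + 1) ≤ 2 := by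
    apply hclique
    intro u v h1 h2 h3 h4 h5
    rw [H_adj]
    unfold rel
    omega
  -- the cut vertices
  have hg : cnt S (m + q - 1) (m + q) = 0 →
      (cnt S (m + q) (m + q + 1) = 0 ∧ cnt S (m + q + 1) (m + q + 2) = 0 ∧
        cnt S (m + q + 2) (m + 2 * q + 1) = 0 ∧ cnt S (m + 2 * q + 1) (2 * m + 2 * q + 1) = 0 ∧
        cnt S (2 * m + 2 * q + 1) (2 * m + 3 * q + 1) = 0 ∧
        cnt S (2 * m + 3 * q + 1) (2 * m + 4 * q + 1) = 0) ∨
      (cnt S 0 m = 0 ∧ cnt S m (m + q - 1) = 0) := by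
    intro h0
    have hW := not_mem_of_cnt S _ _ (by omega) h0
    rcases side (H m q) _ hS.connected (fun x => x.1 = m + q - 1) (fun x hx => hW x (mem_coe.1 hx))
      (fun x => x.1 < m + q - 1) (by
        intro x y h
        rw [H_adj] at h
        unfold rel at h
        omega) with h | h
    · left
      refine ⟨?_, ?_, ?_, ?_, ?_, ?_⟩ <;> apply cnt_zero <;> intro x hx <;>
        have := h x (mem_coe.2 hx) <;> omega
    · right
      refine ⟨?_, ?_⟩ <;> apply cnt_zero <;> intro x hx <;>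
        have := h x (mem_coe.2 hx) <;> omega
  have hh : cnt S (m + q + 1) (m + q + 2) = 0 →
      (cnt S 0 m = 0 ∧ cnt S m (m + q - 1) = 0 ∧ cnt S (m + q - 1) (m + q) = 0 ∧
        cnt S (m + q) (m + q + 1) = 0 ∧
        cnt S (2 * m + 2 * q + 1) (2 * m + 3 * q + 1) = 0 ∧
        cnt S (2 * m + 3 * q + 1) (2 * m + 4 * q + 1) = 0) ∨
      (cnt S (m + q + 2) (m + 2 * q + 1) = 0 ∧
        cnt S (m + 2 * q + 1) (2 * m + 2 * q + 1) = 0) := by
    intro h0
    have hW := not_mem_of_cnt S _ _ (by omega) h0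
    rcases side (H m q) _ hS.connected (fun x => x.1 = m + q + 1) (fun x hx => hW x (mem_coe.1 hx))
      (fun x => m + q + 1 < x.1 ∧ x.1 < 2 * m + 2 * q + 1) (by
        intro x y h
        rw [H_adj] at h
        unfold rel at h
        omega) with h | h
    · left
      refine ⟨?_, ?_, ?_, ?_, ?_, ?_⟩ <;> apply cnt_zero <;> intro x hx <;>
        have := h x (mem_coe.2 hx) <;> omega
    · right
      refine ⟨?_, ?_⟩ <;> apply cnt_zero <;> intro x hx <;>
        have := h x (mem_coe.2 hx) <;> omega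
  have hv : cnt S (m + q) (m + q + 1) = 0 →
      (cnt S (m + q + 1) (m + q + 2) = 0 ∧
        cnt S (m + q + 2) (m + 2 * q + 1) = 0 ∧ cnt S (m + 2 * q + 1) (2 * m + 2 * q + 1) = 0 ∧
        cnt S (2 * m + 3 * q + 1) (2 * m + 4 * q + 1) = 0) ∨
      (cnt S 0 m = 0 ∧ cnt S m (m + q - 1) = 0 ∧ cnt S (m + q - 1) (m + q) = 0 ∧
        cnt S (2 * m + 2 * q + 1) (2 * m + 3 * q + 1) = 0) := by
    intro h0
    have hW := not_mem_of_cnt S _ _ (by omega) h0
    rcases side (H m q) _ hS.connected (fun x => x.1 = m + q) (fun x hx => hW x (mem_coe.1 hx))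
      (fun x => x.1 < m + q ∨ (2 * m + 2 * q + 1 ≤ x.1 ∧ x.1 < 2 * m + 3 * q + 1)) (by
        intro x y h
        rw [H_adj] at h
        unfold rel at h
        omega) with h | h
    · left
      refine ⟨?_, ?_, ?_, ?_⟩ <;> apply cnt_zero <;> intro x hx <;>
        have := h x (mem_coe.2 hx) <;> omega
    · right
      refine ⟨?_, ?_, ?_, ?_⟩ <;> apply cnt_zero <;> intro x hx <;>
        have := h x (mem_coe.2 hx) <;> omega
  -- the triangles
  have tri : ∀ a b c d e f : ℕ, (∀ u v w : Fin (2 * m + 4 * q + 1), a ≤ u.1 → u.1 < b →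
      c ≤ v.1 → v.1 < d → e ≤ w.1 → w.1 < f →
      (H m q).Adj u v ∧ (H m q).Adj u w ∧ (H m q).Adj v w) →
      cnt S a b ≠ 0 → cnt S c d ≠ 0 → cnt S e f = 0 := by
    intro a b c d e f hadj h1 h2
    by_contra h3
    obtain ⟨x, hx, hx1, hx2⟩ := cnt_pos S _ _ h1
    obtain ⟨y, hy, hy1, hy2⟩ := cnt_pos S _ _ h2
    obtain ⟨z, hz, hz1, hz2⟩ := cnt_pos S _ _ h3
    obtain ⟨t1, t2, t3⟩ := hadj x y z hx1 hx2 hy1 hy2 hz1 hz2
    exact notri (H m q) _ hS.isAcyclic (mem_coe.2 hx) (mem_coe.2 hy) (mem_coe.2 hz) t1 t2 t3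
  have t1 := tri (m + q - 1) (m + q) (m + q) (m + q + 1) (2 * m + 2 * q + 1)
    (2 * m + 3 * q + 1) (by
      intro u v w h1 h2 h3 h4 h5 h6
      have := w.2
      rw [H_adj, H_adj, H_adj]
      unfold rel
      omega)
  have t2 := tri (m + q + 1) (m + q + 2) (m + q) (m + q + 1) (2 * m + 3 * q + 1)
    (2 * m + 4 * q + 1) (by
      intro u v w h1 h2 h3 h4 h5 h6
      have := w.2
      rw [H_adj, H_adj, H_adj]
      unfold rel
      omega)
  -- adding up
  have b1 := cnt_le S m (m + q - 1) (by omega)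
  have b2 := cnt_le S (m + q - 1) (m + q) (by omega)
  have b3 := cnt_le S (m + q) (m + q + 1) (by omega)
  have b4 := cnt_le S (m + q + 1) (m + q + 2) (by omega)
  have b5 := cnt_le S (m + q + 2) (m + 2 * q + 1) (by omega)
  have b6 := cnt_le S (2 * m + 2 * q + 1) (2 * m + 3 * q + 1) (by omega)
  have b7 := cnt_le S (2 * m + 3 * q + 1) (2 * m + 4 * q + 1) (by omega)
  have e0 := cnt_all S
  have e1 := cnt_add S 0 m (2 * m + 4 * q + 1) (by omega) (by omega)
  have e2 := cnt_add S m (m + q - 1) (2 * m + 4 * q + 1) (by omega) (by omega)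
  have e3 := cnt_add S (m + q - 1) (m + q) (2 * m + 4 * q + 1) (by omega) (by omega)
  have e4 := cnt_add S (m + q) (m + q + 1) (2 * m + 4 * q + 1) (by omega) (by omega)
  have e5 := cnt_add S (m + q + 1) (m + q + 2) (2 * m + 4 * q + 1) (by omega) (by omega)
  have e6 := cnt_add S (m + q + 2) (m + 2 * q + 1) (2 * m + 4 * q + 1) (by omega) (by omega)
  have e7 := cnt_add S (m + 2 * q + 1) (2 * m + 2 * q + 1) (2 * m + 4 * q + 1)
    (by omega) (by omega)
  have e8 := cnt_add S (2 * m + 2 * q + 1) (2 * m + 3 * q + 1) (2 * m + 4 * q + 1)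
    (by omega) (by omega)
  clear hclique tri
  omega

theorem upper (a b : ℝ) (ha : 0 ≤ a) (hb : 0 ≤ b) (hab : 1 < a + b) (N : ℕ) :
    ∃ (n : ℕ) (G : SimpleGraph (Fin n)), G.Connected ∧
      (treeNum G : ℝ) + N < a * avgEcc G + b * (maxLocalIndep G : ℝ) := by
  obtain ⟨q, hq⟩ := exists_nat_gt (((N : ℝ) + 5) / (2 * (a + b - 1)) + 1)
  have hpos : 0 < 2 * (a + b - 1) := by linarith
  have hq0 : (0 : ℝ) ≤ ((N : ℝ) + 5) / (2 * (a + b - 1)) := by positivity
  have hq1 : 1 ≤ q := by
    have : (1 : ℝ) < q := by linarith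
    exact_mod_cast this.le
  have hq2 : (N : ℝ) + 5 < 2 * q * (a + b - 1) := by
    have : ((N : ℝ) + 5) / (2 * (a + b - 1)) < q := by linarith
    rw [div_lt_iff₀ hpos] at this
    linarith
  set m : ℕ := (2 * q + 1) * (4 * q + 1) with hm
  have hm1 : 1 ≤ m := by
    rw [hm]; exact Nat.mul_pos (by omega) (by omega)
  refine ⟨2 * m + 4 * q + 1, H m q, H_conn m q hm1 hq1, ?_⟩
  have h1 : treeNum (H m q) ≤ 2 * q + 5 := by
    apply csSup_le'
    rintro k ⟨S, rfl, hS⟩
    exact tree_le m q hm1 hq1 S hS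
  have h2 := sum_ge m q hm1 hq1
  have h3 := L_ge m q hm1 hq1
  have h1' : (treeNum (H m q) : ℝ) ≤ 2 * q + 5 := by exact_mod_cast h1
  have h3' : (2 : ℝ) * q ≤ maxLocalIndep (H m q) := by exact_mod_cast h3
  have h2' : (2 : ℝ) * q + 1 ≤ avgEcc (H m q) := by
    rw [avgEcc, Fintype.card_fin]
    have hd : (0 : ℝ) < ((2 * m + 4 * q + 1 : ℕ) : ℝ) := by positivity
    rw [le_div_iff₀ hd]
    have h4 : (2 * m * (2 * q + 2) : ℝ) ≤ ∑ v, (ecc (H m q) v : ℝ) := by exact_mod_cast h2
    have h5 : (m : ℝ) = (2 * q + 1) * (4 * q + 1) := by rw [hm]; push_cast; ring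
    have h6 : (0 : ℝ) ≤ m := by positivity
    push_cast
    nlinarith
  have h4 : a * (2 * q) ≤ a * avgEcc (H m q) := mul_le_mul_of_nonneg_left (by linarith) ha
  have h5 : b * (2 * q) ≤ b * (maxLocalIndep (H m q) : ℝ) := mul_le_mul_of_nonneg_left h3' hb
  nlinarith

/-- **The exact region.**  For real numbers `a, b ≥ 0` there is a constant `C` such that
`a ecc_avg(G) + b max λ(v) ≤ tree(G) + C` for all connected graphs `G` if and only if
`a + b ≤ 1`, and then even `a ecc_avg(G) + b max λ(v) + 1 ≤ tree(G)`.  In particular, for every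
`c > 0` the inequality `tree(G) ≥ ⌈ecc_avg(G) + c max λ(v)⌉` fails by an arbitrarily large
amount. -/
theorem result :
    (∀ a b : ℝ, 0 ≤ a → 0 ≤ b →
      ((∃ C : ℝ, ∀ (n : ℕ) (G : SimpleGraph (Fin n)), G.Connected →
        a * avgEcc G + b * (maxLocalIndep G : ℝ) ≤ (treeNum G : ℝ) + C) ↔ a + b ≤ 1) ∧
      (a + b ≤ 1 → ∀ (V : Type) [Fintype V] (G : SimpleGraph V), G.Connected →
        a * avgEcc G + b * (maxLocalIndep G : ℝ) + 1 ≤ (treeNum G : ℝ))) ∧
    (∀ c : ℝ, 0 < c → ∀ N : ℕ, ∃ (n : ℕ) (G : SimpleGraph (Fin n)), G.Connected ∧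
      (treeNum G : ℤ) + N < ⌈avgEcc G + c * (maxLocalIndep G : ℝ)⌉) := by
  refine ⟨fun a b ha hb => ⟨⟨?_, ?_⟩, ?_⟩, ?_⟩
  · rintro ⟨C, hC⟩
    by_contra hab
    obtain ⟨N, hN⟩ := exists_nat_gt C
    obtain ⟨n, G, hG, h⟩ := upper a b ha hb (not_le.1 hab) N
    have := hC n G hG
    linarith
  · intro hab
    refine ⟨0, fun n G hG => ?_⟩
    have := lower G hG a b ha hb hab
    linarith
  · intro hab V _ G hG
    exact lower G hG a b ha hb hab
  · intro c hc N
    obtain ⟨n, G, hG, h⟩ := upper 1 c zero_le_one hc.le (by linarith) N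
    refine ⟨n, G, hG, ?_⟩
    rw [Int.lt_ceil]
    push_cast
    linarith

end Pool.Agent.Results.MP_e3442a_co.ExactRegion
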